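import Pool.Agent.W_MP_5d512e_h83.Step

/-!
# The reduction to transducers whose letters act by a non-aperiodic semigroup
-/

set_option autoImplicit false

namespace Pool.Agent.W_MP_5d512e_h83

open Pool.Agent.W_MP_5d512e_h33 Gc Lc

/-! ### Filtering the output of a machine, polynomial overhead -/

theorem filter_poly {D d : ℕ} {W : ℕ → Fin D} {w : ℕ → Fin d}
    (φ : Fin D → Option (Fin d)) (B e : ℕ)
    (h1 : ∀ (N j : ℕ) (h : j < (((List.range N).map W).filterMap φ).length),
      (((List.range N).map W).filterMap φ)[j] = w j)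
    (h2 : ∀ n : ℕ, n ≤ (((List.range (B * (n + 1) ^ e)).map W).filterMap φ).length)
    (h : LogSpace W) : LogSpace w := by
  obtain ⟨m, k, g, C, δM, conf, c0, cs, co, cu, cb⟩ := h
  have hout : ∀ t, (conf t).2.2.2 = (List.range (conf t).2.2.2.length).map W :=
    fun t => out_eq (co t)
  refine ⟨m, k, g, C * (Nat.log 2 (B + 1) + 1 + e + 1),
    fun s r => ((δM s r).1, (δM s r).2.1, (δM s r).2.2.1, (δM s r).2.2.2.bind φ),
    fun t => ((conf t).1, (conf t).2.1, (conf t).2.2.1, (conf t).2.2.2.filterMap φ),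
    ?_, ?_, ?_, ?_, ?_⟩
  · simp [c0]
  · intro t
    simp only
    rw [cs t]
    simp only [List.filterMap_append, Prod.mk.injEq, true_and, List.append_cancel_left_eq]
    cases (δM (conf t).1 (fun j' => (conf t).2.1 j' ((conf t).2.2.1 j'))).2.2.2 with
    | none => simp
    | some x =>
      simp only [Option.toList_some, Option.bind_some]
      cases hx : φ x <;> simp [hx]
  · intro t i hi
    simp only at hi ⊢
    have e := hout t
    have hi' : i < (((List.range (conf t).2.2.2.length).map W).filterMap φ).length := by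
      rw [← e]; exact hi
    have := h1 _ i hi'
    rw [← this]
    congr 1
    rw [← e]
  · intro n
    obtain ⟨t, ht⟩ := cu (B * (n + 1) ^ e)
    refine ⟨t, ?_⟩
    simp only
    refine (h2 n).trans ?_
    have := (prefix_range W ht).filterMap φ
    rw [← hout t] at this
    exact this.length_le
  · intro n t hn ht j
    simp only at ht ⊢
    have hN : 1 ≤ (B + 1) * (n + 1) ^ e := Nat.mul_pos (by omega) (by positivity)
    have hlt : ∀ t' < t, (conf t').2.2.2.length < (B + 1) * (n + 1) ^ e := by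
      intro t' ht'
      by_contra hcon
      have hB : B * (n + 1) ^ e ≤ (conf t').2.2.2.length := by
        have : B * (n + 1) ^ e ≤ (B + 1) * (n + 1) ^ e := Nat.mul_le_mul_right _ (by omega)
        omega
      have h3 := (prefix_range W hB).filterMap φ
      rw [← hout t'] at h3
      have h4 := h3.length_le
      have h5 := h2 n
      have h6 := ht t' ht'
      omega
    have h3 := cb _ t hN hlt j
    refine h3.trans ?_
    have h4 : Nat.log 2 ((B + 1) * (n + 1) ^ e) + 1 ≤
        (Nat.log 2 (B + 1) + 1 + e + 1) * (Nat.log 2 n + 1) := by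
      have hb : B + 1 < 2 ^ (Nat.log 2 (B + 1) + 1) := Nat.lt_pow_succ_log_self (by omega) _
      have hn' : n < 2 ^ (Nat.log 2 n + 1) := Nat.lt_pow_succ_log_self (by omega) _
      have hn1 : n + 1 ≤ 2 ^ (Nat.log 2 n + 1) := hn'
      have hlog : Nat.log 2 ((B + 1) * (n + 1) ^ e) <
          (Nat.log 2 (B + 1) + 1) + (Nat.log 2 n + 1) * e := by
        apply Nat.log_lt_of_lt_pow (by positivity)
        rw [pow_add, pow_mul]
        exact Nat.mul_lt_mul_of_lt_of_le hb (Nat.pow_le_pow_left hn1 e) (by positivity)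
      have : (Nat.log 2 (B + 1) + 1 + e + 1) * (Nat.log 2 n + 1) =
          (Nat.log 2 (B + 1) + 1) * Nat.log 2 n + (Nat.log 2 (B + 1) + 1) +
            (Nat.log 2 n + 1) * e + (Nat.log 2 n + 1) := by ring
      have h0 : 0 ≤ (Nat.log 2 (B + 1) + 1) * Nat.log 2 n := Nat.zero_le _
      omega
    calc C * (Nat.log 2 ((B + 1) * (n + 1) ^ e) + 1) ≤
        C * ((Nat.log 2 (B + 1) + 1 + e + 1) * (Nat.log 2 n + 1)) := Nat.mul_le_mul_left _ h4
      _ = C * (Nat.log 2 (B + 1) + 1 + e + 1) * (Nat.log 2 n + 1) := by ring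

/-! ### The simulation -/

section

variable {S : Type} {d r : ℕ} (Y : Sys S (Fin (d + 1))) (M : ℕ)

/-- Start value of the exponent of the clock. -/
def k0 : ℕ := M + Y.u.length

/-- Start word. -/
def ini (r : ℕ) : List (Lc d) := wn (List.replicate (r ^ k0 Y M) ((), true)) 0 [] Y.u

/-- Bound for the packs. -/
def mm (r : ℕ) : ℕ := (ini Y M r).length + r + M + 1

/-- The transducer. -/
def XS (r : ℕ) : Sys (ZMod r) (Lt r (Gc S d) (Lc d) (mm Y M r)) :=
  (prog r Y).sys (mm Y M r) (nm (Y.δ Y.q0 Y.a)) (ini Y M r)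

/-- Letters of the canonical words. -/
def cw (r : ℕ) (k i : ℕ) (Z : List (Fin (d + 1))) : List (Lc d) :=
  wd (List.replicate (r ^ k) ((), true)) i (Z.map (fun z => (z, true)))

lemma upc_len (hr : 1 < r) (hM : ∀ q x, (Y.out q x).length ≤ M) (g : Gc S d) (P b : ZMod r)
    (l : Lc d) : ((prog r Y).up g P b l).length ≤ mm Y M r := by
  have h1 : ((prog r Y).up g P b l).length ≤ r + M + 1 := by
    have h2 := fun q x => hM q x
    cases g <;> cases l <;> simp only [prog, upc] <;> (try split_ifs) <;>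
      simp only [List.length_append, List.length_map, List.length_cons, List.length_nil,
        List.length_replicate] <;> (try omega)
    rename_i q y c
    have := h2 q y
    omega
  unfold mm
  omega

lemma st_of {t n : ℕ} {c c' : ZMod r × List (Lt r (Gc S d) (Lc d) (mm Y M r)) ×
    List (Lt r (Gc S d) (Lc d) (mm Y M r))}
    (h : (XS Y M r).st t = c) (h' : (qstep (XS Y M r).δ (XS Y M r).out)^[n] c = c') :
    (XS Y M r).st (t + n) = c' := by
  rw [← h', ← h, Sys.st, seq_add]
  rfl

theorem chain (hr : 1 < r) (hM : ∀ q x, (Y.out q x).length ≤ M) :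
    ∃ B : ℕ, ∀ i : ℕ, ∃ t k T,
      (XS Y M r).st t = (0, RS.emb (mm Y M r) (hD (Y.st i).1) (cw r k i (Y.st i).2.1), T) ∧
      T.filterMap ((prog r Y).psi Y.a) = Y.T i ∧ i ≤ t ∧ t ≤ B * (i + 1) ^ 3 ∧
      r ^ k + i + Y.K i + 1 ≤ B * (i + 1) ∧ M ≤ r ^ k ∧ Y.K i ≤ r ^ (k + 1) ∧
      r ^ k ≤ r ^ k0 Y M + r * Y.K i := by
  have hmm : 1 ≤ mm Y M r := by unfold mm; omega
  have hup := upc_len (r := r) Y M hr hM
  set c1 : ℕ := r ^ k0 Y M + r * (Y.K 0 + M) + (Y.K 0 + M) + 2 with hc1
  set B : ℕ := mm Y M r * (ini Y M r).length + (mm Y M r + 2) * c1 +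
    (2 * c1 + d + 5) * ((mm Y M r + 2) * c1) + c1 with hB
  have hKle : ∀ i, Y.K i ≤ (Y.K 0 + M) * (i + 1) := by
    intro i
    have := K_le Y hM i
    nlinarith [Nat.zero_le (Y.K 0 * i)]
  -- lengths of canonical words
  have hlen : ∀ k i, r ^ k ≤ r ^ k0 Y M + r * Y.K i → r ^ k + i + Y.K i + 1 ≤ c1 * (i + 1) := by
    intro k i h
    have h1 := hKle i
    have h2 : r * Y.K i ≤ r * ((Y.K 0 + M) * (i + 1)) := Nat.mul_le_mul_left _ h1
    have h3 : r ^ k0 Y M ≤ r ^ k0 Y M * (i + 1) := Nat.le_mul_of_pos_right _ (by omega)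
    have h4 : c1 * (i + 1) = r ^ k0 Y M * (i + 1) + r * ((Y.K 0 + M) * (i + 1)) +
      (Y.K 0 + M) * (i + 1) + 2 * (i + 1) := by rw [hc1]; ring
    rw [h4]
    omega
  have hcB : c1 ≤ B := by omega
  have hwl : ∀ k i (Z : List (Fin (d + 1))), (cw r k i Z).length = r ^ k + i + Z.length + 1 := by
    intro k i Z
    rw [cw, length_wd]
    simp
  refine ⟨B, fun i => ?_⟩
  induction i with
  | zero =>
    -- unpack the start word
    have hini : (ini Y M r).length ≤ mm Y M r := by unfold mm; omega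
    have hine : ini Y M r ≠ [] := by
      unfold ini wn
      simp
    obtain ⟨t, V, h1, h2, h3⟩ := RS.unpack (prog r Y) (nm (Y.δ Y.q0 Y.a)) (ini Y M r) Y.a
      (nm (Y.δ Y.q0 Y.a)) (mm Y M r) le_rfl [pk (mm Y M r) (ini Y M r)]
      (by
        intro p hp
        rw [List.mem_singleton] at hp
        subst hp
        rw [pk_val hini]
        exact ⟨hine, by omega⟩)
      [.S, .A1 (nm (Y.δ Y.q0 Y.a)) (Fin.last _) (pk (mm Y M r) (ini Y M r))]
    simp only [List.flatMap_cons, List.flatMap_nil, List.append_nil, pk_val hini] at h1 h2 h3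
    rw [if_neg (by omega), RS.emb_psi _ hmm] at h3
    have e0 : (XS Y M r).st 0 = (0, [pk (mm Y M r) (ini Y M r)].map
        (Lt.A1 (nm (Y.δ Y.q0 Y.a)) (⟨mm Y M r, by omega⟩ : Fin (mm Y M r + 1))),
        [.S, .A1 (nm (Y.δ Y.q0 Y.a)) (Fin.last _) (pk (mm Y M r) (ini Y M r))]) := by
      rw [Sys.st_zero]
      have : (XS Y M r).δ (XS Y M r).q0 (XS Y M r).a = 0 := by
        simp [XS, RS.sys, RS.wt]
      rw [this]
      rfl
    have e1 := st_of Y M e0 h2
    -- the first round
    obtain ⟨t', V', k1, k2, k3, k4, k5⟩ := RS.rounds (prog r Y) (nm (Y.δ Y.q0 Y.a)) (ini Y M r)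
      hmm hup Y.a 1 (nm (Y.δ Y.q0 Y.a), ini Y M r, Y.a :: Y.u) hine
      ([.S, .A1 (nm (Y.δ Y.q0 Y.a)) (Fin.last _) (pk (mm Y M r) (ini Y M r))] ++ V)
    have hstep : (prog r Y).rstep (nm (Y.δ Y.q0 Y.a), ini Y M r, Y.a :: Y.u) =
        (hD (Y.δ Y.q0 Y.a), cw r (k0 Y M) 0 Y.u, Y.a :: Y.u) := by
      rw [ini, step_nm, List.nil_append, cw]
    rw [Function.iterate_one, hstep] at k1 k3 k4
    simp only at k1 k3 k4
    have e2 := st_of Y M e1 k3
    have hpw : ∀ n : ℕ, n < r ^ n := fun n => Nat.lt_pow_self hr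
    have hkk : k0 Y M < r ^ k0 Y M := hpw _
    have hK0 : Y.K 0 = Y.u.length := by rw [Sys.K, Sys.st_zero]
    refine ⟨0 + t + t', k0 Y M, _, e2, ?_, by omega, ?_, ?_, ?_, ?_, by omega⟩
    · rw [List.filterMap_append, List.filterMap_append, h3]
      have hV' : V'.filterMap ((prog r Y).psi Y.a) = [] := List.self_eq_append_right.1 k4
      rw [hV']
      have hex : (ini Y M r).filterMap (prog r Y).ex = Y.u := exc_wn _ _ _ _
      rw [hex]
      have hmne : (Fin.last (mm Y M r)) ≠ 0 := by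
        intro h
        have := congrArg Fin.val h
        simp only [Fin.val_last, Fin.val_zero] at this
        omega
      have : ([.S, .A1 (nm (Y.δ Y.q0 Y.a)) (Fin.last _) (pk (mm Y M r) (ini Y M r))] :
          List (Lt r (Gc S d) (Lc d) (mm Y M r))).filterMap ((prog r Y).psi Y.a) = [Y.a] := by
        simp [RS.psi, hmne]
      rw [this, List.append_nil]
      rfl
    · rw [hwl] at k1
      have h5 := hlen (k0 Y M) 0 (by omega)
      rw [hK0] at h5
      have h6 : (mm Y M r + 2) * (r ^ k0 Y M + 0 + Y.u.length + 1) ≤ (mm Y M r + 2) * c1 :=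
        Nat.mul_le_mul_left _ (by omega)
      simp only [zero_add, one_pow, mul_one, one_mul] at k1 ⊢
      simp only [add_zero] at k1 h6
      omega
    · have h5 := hlen (k0 Y M) 0 (by omega)
      omega
    · have : M ≤ k0 Y M := by unfold k0; omega
      omega
    · have : Y.u.length ≤ k0 Y M := by unfold k0; omega
      rw [hK0, pow_succ]
      have : r ^ k0 Y M ≤ r ^ k0 Y M * r := Nat.le_mul_of_pos_right _ (by omega)
      omega
  | succ i ih =>
    obtain ⟨t, k, T, h1, h2, h3, h4, h5, h6, h7, h8⟩ := ih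
    obtain ⟨x, hx1, hx2, hx3⟩ := Y.T_succ i
    set q := (Y.st i).1 with hq
    set zs := (Y.st i).2.1.tail with hzs
    have hKi : Y.K i = zs.length + 1 := by rw [Sys.K, hx2]; simp
    have hKs : Y.K (i + 1) = zs.length + (Y.out q x).length := by
      rw [Sys.K, hx3]; simp
    have hout := hM q x
    have houtpos := List.length_pos_iff.2 (Y.hne q x)
    obtain ⟨n, c, n1, n2, n3, n4, n5, n6⟩ := step Y hr q k i x zs (Y.T i)
      (by rw [← hKi]; exact h7)
    have hne : cw r k i (x :: zs) ≠ [] := by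
      unfold cw wd
      simp
    obtain ⟨t', V', k1, k2, k3, k4, k5⟩ := RS.rounds (prog r Y) (nm (Y.δ Y.q0 Y.a)) (ini Y M r)
      hmm hup Y.a n (hD q, cw r k i (x :: zs), Y.T i) hne T
    have n4' : ((prog r Y).rstep)^[n] (hD q, cw r k i (x :: zs), Y.T i) =
      (hD (Y.δ q x), cw r (k + c) (i + 1) (zs ++ Y.out q x), Y.T i ++ Y.out q x) := n4
    rw [n4'] at k1 k3 k4 k5
    simp only at k1 k3 k4 k5
    rw [hx2] at h1
    have e2 := st_of Y M h1 k3
    have hpk : 1 ≤ r ^ k := Nat.one_le_pow _ _ (by omega)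
    have hc8 : r ^ (k + c) ≤ r ^ k0 Y M + r * Y.K (i + 1) := by
      have hmono : r * Y.K i ≤ r * Y.K (i + 1) := Nat.mul_le_mul_left _ (Y.K_mono (by omega))
      rcases Nat.eq_zero_or_pos c with h0 | h0
      · rw [h0, add_zero]; omega
      · have hc : c = 1 := by omega
        have := n6 hc
        rw [hc, pow_succ, mul_comm]
        have : r * r ^ k ≤ r * Y.K i := Nat.mul_le_mul_left _ (by omega)
        omega
    have hl5 := hlen (k + c) (i + 1) hc8
    refine ⟨t + t', k + c, T ++ V', ?_, ?_, by omega, ?_, ?_, ?_, ?_, hc8⟩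
    · rw [e2, hx3]
    · rw [List.filterMap_append, h2]
      rw [hx1]
      rw [List.append_cancel_left_eq] at k4
      rw [k4]
    · rw [hwl] at k1
      have hklt : k < r ^ k := Nat.lt_pow_self hr
      have hlk := hlen k i h8
      have hn : n ≤ (2 * c1 + d + 5) * (i + 1) := by
        have e : (2 * c1 + d + 5) * (i + 1) = 2 * (c1 * (i + 1)) + (d + 5) * (i + 1) := by ring
        have e2 : d + 5 ≤ (d + 5) * (i + 1) := Nat.le_mul_of_pos_right _ (by omega)
        rw [e]
        omega
      have hw : (mm Y M r + 2) * (r ^ (k + c) + (i + 1) + (zs ++ Y.out q x).length + 1) ≤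
          (mm Y M r + 2) * (c1 * (i + 2)) := by
        apply Nat.mul_le_mul_left
        rw [List.length_append, ← hKs]
        exact hl5
      have ht : t' ≤ B * (i + 2) ^ 2 := by
        calc t' ≤ n * ((mm Y M r + 2) *
              (r ^ (k + c) + (i + 1) + (zs ++ Y.out q x).length + 1)) := k1
          _ ≤ ((2 * c1 + d + 5) * (i + 1)) * ((mm Y M r + 2) * (c1 * (i + 2))) :=
            Nat.mul_le_mul hn hw
          _ ≤ ((2 * c1 + d + 5) * (i + 2)) * ((mm Y M r + 2) * (c1 * (i + 2))) :=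
            Nat.mul_le_mul_right _ (Nat.mul_le_mul_left _ (by omega))
          _ = ((2 * c1 + d + 5) * ((mm Y M r + 2) * c1)) * (i + 2) ^ 2 := by ring
          _ ≤ B * (i + 2) ^ 2 := Nat.mul_le_mul_right _ (by omega)
      have e3 : B * (i + 1 + 1) ^ 3 = B * (i + 1) ^ 3 + B * (i + 2) ^ 2 +
          B * (2 * i ^ 2 + 5 * i + 3) := by ring
      rw [e3]
      omega
    · exact hl5.trans (Nat.mul_le_mul_right _ hcB)
    · exact h6.trans (Nat.pow_le_pow_right (by omega) (by omega))
    · rw [hKs]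
      rcases Nat.eq_zero_or_pos c with h0 | h0
      · have := n5 h0
        rw [h0, add_zero, pow_succ]
        have : r ^ k * 2 ≤ r ^ k * r := Nat.mul_le_mul_left _ hr
        omega
      · have hc : c = 1 := by omega
        rw [hc, pow_succ, pow_succ]
        have e1 : r ^ k * r * 2 ≤ r ^ k * r * r := Nat.mul_le_mul_left _ hr
        have e2 : r ^ k * 2 ≤ r ^ k * r := Nat.mul_le_mul_left _ hr
        rw [hKi, pow_succ] at h7
        omega

end

/-! ### Change of the state set -/

open Classical in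
/-- Outputs after an embedding of the states. -/
noncomputable def emo {S1 S2 A : Type} (X : Sys S1 A) (θ : S1 → S2) (t : S2) (x : A) : List A :=
  if h : ∃ q, θ q = t then X.out h.choose x else X.out X.q0 x

lemma emo_eq {S1 S2 A : Type} (X : Sys S1 A) (θ : S1 → S2) (hθ : Function.Injective θ)
    (q : S1) (x : A) : emo X θ (θ q) x = X.out q x := by
  have h : ∃ q', θ q' = θ q := ⟨q, rfl⟩
  unfold emo
  rw [dif_pos h, hθ h.choose_spec]

lemma emo_cases {S1 S2 A : Type} (X : Sys S1 A) (θ : S1 → S2) (t : S2) (x : A) :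
    ∃ q, emo X θ t x = X.out q x := by
  unfold emo
  split_ifs
  · exact ⟨_, rfl⟩
  · exact ⟨_, rfl⟩

/-- Embedding of the states. -/
noncomputable def ems {S1 S2 A : Type} (X : Sys S1 A) (θ : S1 → S2) (hθ : Function.Injective θ)
    (δ2 : S2 → A → S2) : Sys S2 A where
  δ := δ2
  out := emo X θ
  q0 := θ X.q0
  a := X.a
  u := X.u
  hne := by
    intro t x
    obtain ⟨q, hq⟩ := emo_cases X θ t x
    rw [hq]
    exact X.hne _ _
  ha := by
    rw [emo_eq X θ hθ]
    exact X.ha
  hu := X.hu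

section

variable {S1 S2 A : Type} (X : Sys S1 A) (θ : S1 → S2) (hθ : Function.Injective θ)
  (δ2 : S2 → A → S2)

lemma ems_out (q : S1) (x : A) : (ems X θ hθ δ2).out (θ q) x = X.out q x := emo_eq X θ hθ q x

lemma ems_len {n : ℕ} (h : ∀ q x, (X.out q x).length ≤ n) (t : S2) (x : A) :
    ((ems X θ hθ δ2).out t x).length ≤ n := by
  obtain ⟨q, hq⟩ := emo_cases X θ t x
  have : (ems X θ hθ δ2).out t x = X.out q x := hq
  rw [this]
  exact h _ _

lemma ems_st (h : ∀ q x, δ2 (θ q) x = θ (X.δ q x)) (i : ℕ) :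
    (ems X θ hθ δ2).st i = (θ (X.st i).1, (X.st i).2) := by
  induction i with
  | zero =>
    rw [Sys.st_zero, Sys.st_zero]
    simp only [ems, h]
  | succ i ih =>
    rw [Sys.st_succ, ih, Sys.st_succ]
    obtain ⟨q, Z, T⟩ := X.st i
    cases Z with
    | nil => rfl
    | cons x Z =>
      have e1 : (ems X θ hθ δ2).δ (θ q) x = θ (X.δ q x) := h q x
      simp only [qstep]
      rw [e1, ems_out]

lemma ems_lim (h : ∀ q x, δ2 (θ q) x = θ (X.δ q x)) : (ems X θ hθ δ2).lim = X.lim := by
  funext i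
  have hT : (ems X θ hθ δ2).T i = X.T i := by
    rw [Sys.T, ems_st X θ hθ δ2 h, Sys.T]
  have hlt : i < (X.T i).length := by have := X.T_length i; omega
  have hlt' : i < ((ems X θ hθ δ2).T i).length := by rw [hT]; exact hlt
  rw [← (ems X θ hθ δ2).T_getElem hlt', ← X.T_getElem hlt]
  congr 1

end

/-! ### Finiteness -/

instance {S : Type} {d : ℕ} [Finite S] : Finite (Gc S d) := by
  let f : Gc S d → (Fin 4 × S) ⊕ (Fin 2 × S × Fin (d + 1) × Bool) := fun x =>
    match x with
    | .nm q => Sum.inl (0, q)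
    | .hD q => Sum.inl (1, q)
    | .hC q => Sum.inl (2, q)
    | .ck q => Sum.inl (3, q)
    | .rd q y c => Sum.inr (0, q, y, c)
    | .ex q y c => Sum.inr (1, q, y, c)
  apply Finite.of_injective f
  intro x y h
  cases x <;> cases y <;> simp_all [f]

instance {d : ℕ} : Finite (Lc d) := by
  let f : Lc d → Bool ⊕ (Fin (d + 1) × Bool) ⊕ (Fin (d + 1)) ⊕ Bool := fun x =>
    match x with
    | .D c => Sum.inl c
    | .V y c => Sum.inr (Sum.inl (y, c))
    | .N y => Sum.inr (Sum.inr (Sum.inl y))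
    | .X => Sum.inr (Sum.inr (Sum.inr true))
    | .E => Sum.inr (Sum.inr (Sum.inr false))
  apply Finite.of_injective f
  intro x y h
  cases x <;> cases y <;> simp_all [f]

/-! ### The reduction -/

/-- All iterated transducers with states `Fin p`, whose letters act by maps in `F` and whose
outputs have length at most two. -/
def QF (p : ℕ) (F : Set (Fin p → Fin p)) : Prop := ∀ (d : ℕ) (Y : Sys (Fin p) (Fin d)),
  (∀ x, (fun s => Y.δ s x) ∈ F) → (∀ s x, (Y.out s x).length ≤ 2) → LogSpace Y.lim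

theorem XS_log {p : ℕ} {F : Set (Fin p → Fin p)} (hF : ∀ f ∈ F, ∀ g ∈ F, f ∘ g ∈ F)
    {g : Fin p → Fin p} (hg : g ∈ F) {s : Fin p} {n : ℕ} (hn : 0 < n)
    (hgs : g^[n] s = s) (h : QF p F) {D r : ℕ} (hr : r = Function.minimalPeriod g s)
    (X : Sys (ZMod r) (Fin D))
    (w : Fin D → ZMod r) (hw : ∀ q x, X.δ q x = q + w x)
    (hlen : ∀ q x, (X.out q x).length ≤ 2) : LogSpace X.lim := by
  have hper : Function.IsPeriodicPt g n s := hgs
  have hr0 : 0 < r := by rw [hr]; exact hper.minimalPeriod_pos hn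
  have hne0 : NeZero r := ⟨hr0.ne'⟩
  -- powers
  have hpow : ∀ k, g^[k + 1] ∈ F := by
    intro k
    induction k with
    | zero => simpa using hg
    | succ k ih =>
      rw [Function.iterate_succ]
      exact hF _ ih _ hg
  let θ : ZMod r → Fin p := fun k => g^[k.val] s
  have hθ : Function.Injective θ := by
    intro a b hab
    have h1 : g^[a.val] s = g^[b.val] s := hab
    have ha := ZMod.val_lt a
    have hb := ZMod.val_lt b
    rw [Function.iterate_eq_iterate_iff_of_lt_minimalPeriod (by rw [← hr]; exact ha)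
      (by rw [← hr]; exact hb)] at h1
    exact ZMod.val_injective r h1
  have hmod : ∀ k : ℕ, g^[k] s = θ (k : ZMod r) := by
    intro k
    show g^[k] s = g^[(k : ZMod r).val] s
    rw [ZMod.val_natCast]
    conv_rhs => rw [hr]
    rw [Function.iterate_mod_minimalPeriod_eq]
  let δ2 : Fin p → Fin D → Fin p := fun t x => g^[(w x).val + r] t
  have hδ : ∀ q x, δ2 (θ q) x = θ (X.δ q x) := by
    intro q x
    show g^[(w x).val + r] (g^[q.val] s) = θ (X.δ q x)
    rw [← Function.iterate_add_apply, hmod, hw]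
    congr 1
    push_cast
    rw [ZMod.natCast_zmod_val, ZMod.natCast_zmod_val]
    simp [add_comm]
  rw [← ems_lim X θ hθ δ2 hδ]
  apply h
  · intro x
    show (fun t => g^[(w x).val + r] t) ∈ F
    have := hpow ((w x).val + r - 1)
    rw [show (w x).val + r - 1 + 1 = (w x).val + r by omega] at this
    exact this
  · exact ems_len X θ hθ δ2 hlen

theorem QQ_of_QF {p : ℕ} {F : Set (Fin p → Fin p)} (hF : ∀ f ∈ F, ∀ g ∈ F, f ∘ g ∈ F)
    {g : Fin p → Fin p} (hg : g ∈ F) {s : Fin p} (hs : g s ≠ s) {n : ℕ} (hn : 0 < n)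
    (hgs : g^[n] s = s) (h : QF p F) : QQ 0 := by
  rintro p' d Y -
  obtain ⟨d, rfl⟩ : ∃ d', d = d' + 1 := ⟨d - 1, by have := Y.a.pos; omega⟩
  obtain ⟨M, hM⟩ := Y.exists_bound
  set r := Function.minimalPeriod g s with hr
  have hper : Function.IsPeriodicPt g n s := hgs
  have hr0 : 0 < r := hper.minimalPeriod_pos hn
  have hr1 : 1 < r := by
    have : r ≠ 1 := by
      intro h1
      have := Function.isPeriodicPt_minimalPeriod g s
      rw [← hr, h1] at this
      exact hs this
    omega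
  have hne0 : NeZero r := ⟨hr0.ne'⟩
  obtain ⟨D, ⟨e⟩⟩ := Finite.exists_equiv_fin (Lt r (Gc (Fin (p' + 1)) d) (Lc d) (mm Y M r))
  have hX : LogSpace ((XS Y M r).map e).lim := by
    apply XS_log hF hg hn hgs h hr ((XS Y M r).map e) (fun x => (prog r Y).wt (e.symm x))
    · intro q x
      rfl
    · intro q x
      simp only [Sys.map, List.length_map]
      exact RS.ot_len _ _ _ _ _
  obtain ⟨B, hB⟩ := chain Y M hr1 hM
  have hget : ∀ (m i : ℕ) (hi : i < (((XS Y M r).map e).T m).length),
      (((XS Y M r).map e).T m)[i] = ((XS Y M r).map e).lim i :=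
    fun m i hi => ((XS Y M r).map e).T_getElem hi
  have hfil : ∀ m, (((XS Y M r).map e).T m).filterMap
      (fun x => (prog r Y).psi Y.a (e.symm x)) =
      ((XS Y M r).T m).filterMap ((prog r Y).psi Y.a) := by
    intro m
    rw [Sys.map_T, List.filterMap_map]
    congr 1
    funext x
    simp
  refine filter_poly (fun x => (prog r Y).psi Y.a (e.symm x)) (2 * B + 1) 3 ?_ ?_ hX
  · intro N j hj
    obtain ⟨t, k, T, h1, h2, h3, -⟩ := hB N
    have hTt : (XS Y M r).T t = T := by rw [Sys.T, h1]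
    have h4 : (List.range N).map ((XS Y M r).map e).lim <+: ((XS Y M r).map e).T t := by
      have hl := ((XS Y M r).map e).T_length t
      have h5 : ((XS Y M r).map e).T t =
          (List.range (((XS Y M r).map e).T t).length).map ((XS Y M r).map e).lim :=
        out_eq (hget _)
      rw [h5]
      exact prefix_range _ (by omega)
    have h5 := h4.filterMap (fun x => (prog r Y).psi Y.a (e.symm x))
    rw [hfil, hTt, h2] at h5
    rw [h5.getElem hj]
    exact Y.T_getElem _
  · intro n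
    obtain ⟨t, k, T, h1, h2, h3, h4, h5, -⟩ := hB n
    have hTt : (XS Y M r).T t = T := by rw [Sys.T, h1]
    have hlen : (((XS Y M r).map e).T t).length ≤ (2 * B + 1) * (n + 1) ^ 3 := by
      rw [((XS Y M r).map e).T_length, Sys.map_K]
      have hK : (XS Y M r).K t = r ^ k + n + Y.K n + 1 := by
        rw [Sys.K, h1]
        simp only [RS.emb, List.length_map, cw, length_wd, List.length_replicate, Sys.K]
      rw [hK]
      have h6 : n + 1 ≤ (n + 1) ^ 3 := Nat.le_self_pow (by norm_num) _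
      have h7 : B * (n + 1) ≤ B * (n + 1) ^ 3 := Nat.mul_le_mul_left _ h6
      have h8 : 1 ≤ (n + 1) ^ 3 := Nat.one_le_pow _ _ (by omega)
      have h9 : (2 * B + 1) * (n + 1) ^ 3 = B * (n + 1) ^ 3 + B * (n + 1) ^ 3 + (n + 1) ^ 3 := by
        ring
      rw [h9]
      omega
    have h6 := prefix_iff_range (W := ((XS Y M r).map e).lim) (hget t) _ hlen
    have h7 := (h6.filterMap (fun x => (prog r Y).psi Y.a (e.symm x))).length_le
    rw [hfil, hTt, h2, Y.T_length] at h7
    omega

theorem QF_of_main {p : ℕ} {F : Set (Fin p → Fin p)}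
    (h : ∀ (d : ℕ) (δ : Fin p → Fin d → Fin p) (q0 : Fin p)
      (out : Fin p → Fin d → List (Fin d)) (a : Fin d) (w : ℕ → Fin d),
      Iterates δ q0 out a w → (∀ x, (fun s => δ s x) ∈ F) → (∀ s x, (out s x).length ≤ 2) →
      LogSpace w) : QF p F :=
  fun d Y h1 h2 => h d Y.δ Y.q0 Y.out Y.a Y.lim Y.iterates h1 h2

end Pool.Agent.W_MP_5d512e_h83
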