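import Pool.Agent.W_MP_5d512e_h83.Round

/-!
# The round system that simulates an iterated transducer
-/

set_option autoImplicit false

namespace Pool.Agent.W_MP_5d512e_h83

open Pool.Agent.W_MP_5d512e_h33

/-! ### Ceiling division and halving -/

/-- Ceiling division. -/
def cd (r c : ℕ) : ℕ := (c + r - 1) / r

lemma cd_le_iff {r : ℕ} (hr : 1 ≤ r) (c b : ℕ) : cd r c ≤ b ↔ c ≤ b * r := by
  unfold cd
  rw [← Nat.lt_succ_iff, Nat.div_lt_iff_lt_mul (by omega), Nat.succ_mul]
  omega

lemma cd_pos {r : ℕ} (hr : 1 ≤ r) {c : ℕ} (hc : 1 ≤ c) : 1 ≤ cd r c := by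
  by_contra h
  have := (cd_le_iff hr c 0).1 (by omega)
  omega

lemma cd_pow {r : ℕ} (hr : 1 ≤ r) (k : ℕ) : cd r (r ^ (k + 1)) = r ^ k := by
  apply le_antisymm
  · rw [cd_le_iff hr, pow_succ]
  · by_contra h
    push Not at h
    have h1 : cd r (r ^ (k + 1)) ≤ r ^ k - 1 := by omega
    rw [cd_le_iff hr, pow_succ, Nat.sub_mul, one_mul] at h1
    have h2 : 0 < r ^ k := Nat.pow_pos (by omega)
    have h3 : r ≤ r ^ k * r := Nat.le_mul_of_pos_left _ h2
    omega

/-- Number of flags. -/
def fc {α : Type} (l : List (α × Bool)) : ℕ := l.countP (fun x => x.2)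

lemma fc_cons_true {α : Type} (y : α) (l : List (α × Bool)) : fc ((y, true) :: l) = fc l + 1 := by
  simp [fc]

lemma fc_cons_false {α : Type} (y : α) (l : List (α × Bool)) : fc ((y, false) :: l) = fc l := by
  simp [fc]

/-- Keep the flags whose rank is divisible by `r`. -/
def hal {α : Type} (r : ℕ) : ℕ → List (α × Bool) → List (α × Bool)
  | _, [] => []
  | n, (y, true) :: l => (y, decide (r ∣ n)) :: hal r (n + 1) l
  | n, (y, false) :: l => (y, false) :: hal r n l

lemma hal_length {α : Type} (r n : ℕ) (l : List (α × Bool)) : (hal r n l).length = l.length := by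
  induction l generalizing n with
  | nil => rfl
  | cons x l ih =>
    obtain ⟨y, c⟩ := x
    cases c <;> simp [hal, ih]

lemma hal_fst {α : Type} (r n : ℕ) (l : List (α × Bool)) :
    (hal r n l).map Prod.fst = l.map Prod.fst := by
  induction l generalizing n with
  | nil => rfl
  | cons x l ih =>
    obtain ⟨y, c⟩ := x
    cases c <;> simp [hal, ih]

lemma fc_hal {α : Type} {r : ℕ} (hr : 1 ≤ r) (n : ℕ) (l : List (α × Bool)) :
    fc (hal r n l) + cd r n = cd r (n + fc l) := by
  induction l generalizing n with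
  | nil => simp [hal, fc]
  | cons x l ih =>
    obtain ⟨y, c⟩ := x
    cases c
    · rw [hal, fc_cons_false, fc_cons_false, ih]
    · rw [fc_cons_true, hal]
      have h := ih (n + 1)
      rw [show n + (fc l + 1) = n + 1 + fc l by ring, ← h]
      by_cases hd : r ∣ n
      · rw [show decide (r ∣ n) = true by simpa using hd, fc_cons_true]
        have : cd r (n + 1) = cd r n + 1 := by
          obtain ⟨k, rfl⟩ := hd
          have h1 : cd r (r * k) = k := by
            apply le_antisymm
            · rw [cd_le_iff hr, mul_comm]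
            · by_contra hc
              push Not at hc
              have h1 : cd r (r * k) ≤ k - 1 := by omega
              rw [cd_le_iff hr, Nat.sub_mul, one_mul, mul_comm k r] at h1
              have h3 : r ≤ r * k := Nat.le_mul_of_pos_right _ (by omega)
              omega
          have h2 : cd r (r * k + 1) = k + 1 := by
            apply le_antisymm
            · rw [cd_le_iff hr, Nat.succ_mul, mul_comm k r]
              omega
            · by_contra hc
              push Not at hc
              have h1 : cd r (r * k + 1) ≤ k := by omega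
              rw [cd_le_iff hr, mul_comm k r] at h1
              omega
          rw [h1, h2]
        omega
      · rw [show decide (r ∣ n) = false by simpa using hd, fc_cons_false]
        have : cd r (n + 1) = cd r n := by
          apply le_antisymm
          · rw [cd_le_iff hr]
            have h1 := (cd_le_iff hr n (cd r n)).1 le_rfl
            rcases Nat.lt_or_eq_of_le h1 with h2 | h2
            · omega
            · exact absurd ⟨cd r n, by rw [mul_comm]; exact h2⟩ hd
          · rw [cd_le_iff hr]
            have h1 := (cd_le_iff hr (n + 1) (cd r (n + 1))).1 le_rfl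
            omega
        omega

lemma fc_hal_zero {α : Type} {r : ℕ} (hr : 1 ≤ r) (l : List (α × Bool)) :
    fc (hal r 0 l) = cd r (fc l) := by
  have h := fc_hal hr 0 l
  have h0 : cd r 0 = 0 := by
    have := (cd_le_iff hr 0 0).2 (by omega)
    omega
  rw [h0] at h
  simpa using h

/-- Only the first letter is flagged. -/
lemma eq_of_fc_one {α : Type} {y : α} {l : List (α × Bool)} (h : fc ((y, true) :: l) = 1) :
    l = (l.map Prod.fst).map (fun z => (z, false)) := by
  rw [fc_cons_true] at h
  have h0 : fc l = 0 := by omega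
  clear h
  induction l with
  | nil => rfl
  | cons x l ih =>
    obtain ⟨z, c⟩ := x
    cases c
    · rw [fc_cons_false] at h0
      rw [List.map_cons, List.map_cons, ← ih h0]
    · rw [fc_cons_true] at h0
      omega

/-! ### The program -/

/-- Control states. -/
inductive Gc (S : Type) (d : ℕ)
  | nm (q : S)
  | hD (q : S)
  | hC (q : S)
  | ck (q : S)
  | rd (q : S) (y : Fin (d + 1)) (c : Bool)
  | ex (q : S) (y : Fin (d + 1)) (c : Bool)

/-- Labels: clock letters, letters of the queue, new letters, dead letters, end marker. -/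
inductive Lc (d : ℕ)
  | D (c : Bool)
  | V (y : Fin (d + 1)) (c : Bool)
  | N (y : Fin (d + 1))
  | X
  | E

open Gc Lc

variable {S : Type} {d : ℕ}

/-- Weights. -/
def omc (r : ℕ) : Gc S d → Lc d → ZMod r
  | hD _, D c => if c then 1 else 0
  | hC _, V _ c => if c then 1 else 0
  | ck _, V _ c => if c then 1 else 0
  | rd _ y _, V z c => if c = true ∧ z = y then 1 else 0
  | _, _ => 0

/-- Control. -/
def nxc (r : ℕ) (Y : Sys S (Fin (d + 1))) : Gc S d → ZMod r → Gc S d
  | nm q, _ => hD q
  | hD q, P => if P = 0 then hC q else ck q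
  | hC q, _ => hD q
  | ck q, P => rd q 0 (decide (P ≠ 1))
  | rd q y c, P => if P = 1 then ex q y c else rd q (y + 1) c
  | ex q y _, _ => nm (Y.δ q y)

/-- Images of the letters. -/
def upc (r : ℕ) (Y : Sys S (Fin (d + 1))) : Gc S d → ZMod r → Lc d → List (Lc d)
  | hD _, b, D c => [D (c && decide (b = 0))]
  | hC _, b, V y c => [V y (c && decide (b = 0))]
  | ck _, b, V y c => [V y (c && decide (b = 0))]
  | ex _ _ c, _, D _ => if c then D true :: List.replicate (r - 1) (D true) else [D true]
  | ex _ _ _, _, V y c => if c then [X] else [V y true]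
  | ex q y _, _, E => (Y.out q y).map N ++ [E]
  | nm _, _, N y => [V y true]
  | _, _, l => [l]

/-- Extraction. -/
def exc : Lc d → Option (Fin (d + 1))
  | N y => some y
  | _ => none

/-- The round system. -/
def prog (r : ℕ) (Y : Sys S (Fin (d + 1))) : RS r (Gc S d) (Lc d) (Fin (d + 1)) where
  om := omc r
  nx := nxc r Y
  up := fun g _ b l => upc r Y g b l
  ne := by
    intro g P b l
    cases g <;> cases l <;> simp only [upc] <;> (try split_ifs) <;> simp
  ex := exc

/-- The words. -/
def wd (cs : List (Unit × Bool)) (m : ℕ) (vs : List (Fin (d + 1) × Bool)) : List (Lc d) :=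
  cs.map (fun x => D x.2) ++ (List.replicate m X ++ (vs.map (fun x => V x.1 x.2) ++ [E]))

lemma length_wd (cs : List (Unit × Bool)) (m : ℕ) (vs : List (Fin (d + 1) × Bool)) :
    (wd cs m vs).length = cs.length + m + vs.length + 1 := by
  simp [wd]
  omega

lemma exc_wd (cs : List (Unit × Bool)) (m : ℕ) (vs : List (Fin (d + 1) × Bool)) :
    (wd cs m vs).filterMap exc = [] := by
  rw [List.filterMap_eq_nil_iff]
  intro a ha
  simp only [wd, List.mem_append, List.mem_map, List.mem_singleton] at ha
  rcases ha with ⟨x, _, rfl⟩ | ha | ⟨x, _, rfl⟩ | rfl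
  · rfl
  · rw [List.eq_of_mem_replicate ha]; rfl
  · rfl
  · rfl

section

variable {r : ℕ} (Y : Sys S (Fin (d + 1)))

lemma pass_id (g : Gc S d) (P b : ZMod r) (w : List (Lc d))
    (h : ∀ l ∈ w, ∀ b, upc r Y g b l = [l]) : (prog r Y).pass g P b w = w := by
  induction w generalizing b with
  | nil => rfl
  | cons x w ih =>
    rw [RS.pass, ih _ fun l hl => h l (List.mem_cons_of_mem _ hl)]
    have : (prog r Y).up g P b x = [x] := h x List.mem_cons_self b
    rw [this]
    rfl

lemma tot_zero (g : Gc S d) (w : List (Lc d)) (h : ∀ l ∈ w, omc r g l = 0) :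
    (prog r Y).tot g w = 0 := by
  induction w with
  | nil => rfl
  | cons x w ih =>
    rw [RS.tot_cons, ih fun l hl => h l (List.mem_cons_of_mem _ hl)]
    have : (prog r Y).om g x = 0 := h x List.mem_cons_self
    rw [this, add_zero]

lemma tot_D (q : S) (cs : List (Unit × Bool)) :
    (prog r Y).tot (hD q) (cs.map (fun x => D x.2)) = (fc cs : ZMod r) := by
  induction cs with
  | nil => simp [RS.tot, fc]
  | cons x cs ih =>
    obtain ⟨y, c⟩ := x
    rw [List.map_cons, RS.tot_cons, ih]
    cases c
    · rw [fc_cons_false]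
      simp [prog, omc]
    · rw [fc_cons_true]
      simp [prog, omc, add_comm]

lemma pass_D (q : S) (P : ZMod r) (n : ℕ) (cs : List (Unit × Bool)) :
    (prog r Y).pass (hD q) P (n : ZMod r) (cs.map (fun x => D x.2)) =
      (hal r n cs).map (fun x => D x.2) := by
  induction cs generalizing n with
  | nil => rfl
  | cons x cs ih =>
    obtain ⟨y, c⟩ := x
    rw [List.map_cons, RS.pass]
    cases c
    · have h1 : (prog r Y).om (hD q) (D false) = 0 := by simp [prog, omc]
      have h2 : (prog r Y).up (hD q) P (n : ZMod r) (D false) = [D false] := by simp [prog, upc]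
      simp only at h1 h2 ⊢
      rw [h1, h2, add_zero, ih, hal]
      rfl
    · have h1 : (prog r Y).om (hD q) (D true) = 1 := by simp [prog, omc]
      have h2 : (prog r Y).up (hD q) P (n : ZMod r) (D true) = [D (decide (r ∣ n))] := by
        simp [prog, upc, ZMod.natCast_eq_zero_iff]
      have h3 := ih (n + 1)
      rw [Nat.cast_add, Nat.cast_one] at h3
      simp only at h1 h2 ⊢
      rw [h1, h2, h3, hal]
      rfl

/-- Control states in which the flagged letters of the queue are counted. -/
def isC : Gc S d → Prop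
  | hC _ => True
  | ck _ => True
  | _ => False

lemma tot_V (g : Gc S d) (hg : isC g) (vs : List (Fin (d + 1) × Bool)) :
    (prog r Y).tot g (vs.map (fun x => V x.1 x.2)) = (fc vs : ZMod r) := by
  induction vs with
  | nil => simp [RS.tot, fc]
  | cons x vs ih =>
    obtain ⟨y, c⟩ := x
    rw [List.map_cons, RS.tot_cons, ih]
    cases c
    · rw [fc_cons_false]
      cases g <;> simp [isC, prog, omc] at hg ⊢
    · rw [fc_cons_true]
      cases g <;> simp [isC, prog, omc, add_comm] at hg ⊢

lemma pass_V (g : Gc S d) (hg : isC g) (P : ZMod r) (n : ℕ) (vs : List (Fin (d + 1) × Bool)) :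
    (prog r Y).pass g P (n : ZMod r) (vs.map (fun x => V x.1 x.2)) =
      (hal r n vs).map (fun x => V x.1 x.2) := by
  induction vs generalizing n with
  | nil => rfl
  | cons x vs ih =>
    obtain ⟨y, c⟩ := x
    rw [List.map_cons, RS.pass]
    cases c
    · have h1 : (prog r Y).om g (V y false) = 0 := by
        cases g <;> simp [isC, prog, omc] at hg ⊢
      have h2 : (prog r Y).up g P (n : ZMod r) (V y false) = [V y false] := by
        cases g <;> simp [isC, prog, upc] at hg ⊢
      simp only at h1 h2 ⊢
      rw [h1, h2, add_zero, ih, hal]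
      rfl
    · have h1 : (prog r Y).om g (V y true) = 1 := by
        cases g <;> simp [isC, prog, omc] at hg ⊢
      have h2 : (prog r Y).up g P (n : ZMod r) (V y true) = [V y (decide (r ∣ n))] := by
        cases g <;> simp [isC, prog, upc, ZMod.natCast_eq_zero_iff] at hg ⊢
      have h3 := ih (n + 1)
      rw [Nat.cast_add, Nat.cast_one] at h3
      simp only at h1 h2 ⊢
      rw [h1, h2, h3, hal]
      rfl

lemma step_D (q : S) (cs : List (Unit × Bool)) (m : ℕ) (vs : List (Fin (d + 1) × Bool))
    (O : List (Fin (d + 1))) :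
    (prog r Y).rstep (hD q, wd cs m vs, O) =
      (if (fc cs : ZMod r) = 0 then hC q else ck q, wd (hal r 0 cs) m vs, O) := by
  have htail : ∀ l ∈ (List.replicate m X ++ (vs.map (fun x => V x.1 x.2) ++ [E]) :
      List (Lc d)), omc r (hD q) l = 0 ∧ ∀ b, upc r Y (hD q) b l = [l] := by
    intro a ha
    simp only [List.mem_append, List.mem_map, List.mem_singleton] at ha
    rcases ha with ha | ⟨x, _, rfl⟩ | rfl
    · rw [List.eq_of_mem_replicate ha]; exact ⟨rfl, fun _ => rfl⟩
    · exact ⟨rfl, fun _ => rfl⟩
    · exact ⟨rfl, fun _ => rfl⟩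
  have htot : (prog r Y).tot (hD q) (wd cs m vs) = (fc cs : ZMod r) := by
    rw [wd, RS.tot_append, tot_D, tot_zero Y _ _ fun l hl => (htail l hl).1, add_zero]
  have hnxt : (prog r Y).nxt (hD q) (wd cs m vs) = wd (hal r 0 cs) m vs := by
    rw [RS.nxt, wd, RS.pass_append, pass_id Y _ _ _ _ fun l hl => (htail l hl).2]
    have h := pass_D Y q ((prog r Y).tot (hD q) (wd cs m vs)) 0 cs
    rw [Nat.cast_zero] at h
    rw [wd] at h
    rw [h, wd]
  rw [RS.rstep]
  simp only
  rw [htot, hnxt]
  have : (prog r Y).ex = exc := rfl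
  rw [this, exc_wd, List.append_nil]
  rfl

lemma step_C (g : Gc S d) (hg : isC g) (cs : List (Unit × Bool)) (m : ℕ)
    (vs : List (Fin (d + 1) × Bool)) (O : List (Fin (d + 1))) :
    (prog r Y).rstep (g, wd cs m vs, O) =
      (nxc r Y g (fc vs : ZMod r), wd cs m (hal r 0 vs), O) := by
  have h1 : ∀ l ∈ (cs.map (fun x => D x.2) : List (Lc d)),
      omc r g l = 0 ∧ ∀ b, upc r Y g b l = [l] := by
    intro a ha
    obtain ⟨x, _, rfl⟩ := List.mem_map.1 ha
    cases g <;> simp [isC, omc, upc] at hg ⊢
  have h2 : ∀ l ∈ (List.replicate m X : List (Lc d)),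
      omc r g l = 0 ∧ ∀ b, upc r Y g b l = [l] := by
    intro a ha
    rw [List.eq_of_mem_replicate ha]
    cases g <;> simp [isC, omc, upc] at hg ⊢
  have h3 : ∀ l ∈ ([E] : List (Lc d)), omc r g l = 0 ∧ ∀ b, upc r Y g b l = [l] := by
    intro a ha
    rw [List.mem_singleton.1 ha]
    cases g <;> simp [isC, omc, upc] at hg ⊢
  have htot : (prog r Y).tot g (wd cs m vs) = (fc vs : ZMod r) := by
    rw [wd, RS.tot_append, RS.tot_append, RS.tot_append, tot_V Y g hg,
      tot_zero Y _ _ fun l hl => (h1 l hl).1, tot_zero Y _ _ fun l hl => (h2 l hl).1,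
      tot_zero Y _ _ fun l hl => (h3 l hl).1]
    simp
  have hnxt : (prog r Y).nxt g (wd cs m vs) = wd cs m (hal r 0 vs) := by
    have h := pass_V Y g hg ((prog r Y).tot g (wd cs m vs)) 0 vs
    rw [Nat.cast_zero] at h
    rw [RS.nxt]
    conv_lhs => rw [wd]
    rw [RS.pass_append, RS.pass_append, RS.pass_append, pass_id Y _ _ _ _ fun l hl => (h1 l hl).2,
      pass_id Y _ _ _ _ fun l hl => (h2 l hl).2, pass_id Y _ _ _ _ fun l hl => (h3 l hl).2,
      tot_zero Y _ _ fun l hl => (h1 l hl).1, tot_zero Y _ _ fun l hl => (h2 l hl).1, add_zero,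
      add_zero]
    rw [wd] at h
    rw [h, wd]
  rw [RS.rstep]
  simp only
  rw [htot, hnxt]
  have : (prog r Y).ex = exc := rfl
  rw [this, exc_wd, List.append_nil]
  rfl

end

end Pool.Agent.W_MP_5d512e_h83
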