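import Pool.Agent.W_MP_5d512e_h33.Main

/-!
# Round systems and their simulation by transducers whose letters act by translations of `ℤ/r`
-/

set_option autoImplicit false

namespace Pool.Agent.W_MP_5d512e_h83

open Pool.Agent.W_MP_5d512e_h33

/-- A round system: a global control `g`, a word `w`. In one round every letter learns the sum of
the weights of the letters before it and the sum of all weights, and is replaced by a word. -/
structure RS (r : ℕ) (G L A : Type) where
  om : G → L → ZMod r
  nx : G → ZMod r → G
  up : G → ZMod r → ZMod r → L → List L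
  ne : ∀ g P b l, up g P b l ≠ []
  ex : L → Option A

namespace RS

variable {r : ℕ} {G L A : Type} (X : RS r G L A)

/-- One pass. -/
def pass (g : G) (P : ZMod r) : ZMod r → List L → List L
  | _, [] => []
  | b, l :: w => X.up g P b l ++ pass g P (b + X.om g l) w

/-- Total weight. -/
def tot (g : G) (w : List L) : ZMod r := (w.map (X.om g)).sum

/-- The next word. -/
def nxt (g : G) (w : List L) : List L := X.pass g (X.tot g w) 0 w

/-- One round, with the word of the extracted letters. -/
def rstep (s : G × List L × List A) : G × List L × List A :=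
  (X.nx s.1 (X.tot s.1 s.2.1), X.nxt s.1 s.2.1, s.2.2 ++ (X.nxt s.1 s.2.1).filterMap X.ex)

lemma pass_append (g : G) (P b : ZMod r) (u v : List L) :
    X.pass g P b (u ++ v) = X.pass g P b u ++ X.pass g P (b + X.tot g u) v := by
  induction u generalizing b with
  | nil => simp [pass, tot]
  | cons x u ih =>
    rw [List.cons_append, pass, ih, pass, List.append_assoc]
    simp [tot, add_assoc]

lemma tot_append (g : G) (u v : List L) : X.tot g (u ++ v) = X.tot g u + X.tot g v := by
  simp [tot]

lemma tot_cons (g : G) (x : L) (v : List L) : X.tot g (x :: v) = X.om g x + X.tot g v := by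
  simp [tot]

lemma length_pass (g : G) (P b : ZMod r) (w : List L) :
    w.length ≤ (X.pass g P b w).length := by
  induction w generalizing b with
  | nil => simp
  | cons x w ih =>
    rw [pass, List.length_append, List.length_cons]
    have := ih (b + X.om g x)
    have := List.length_pos_iff.2 (X.ne g P b x)
    omega

lemma length_nxt (g : G) (w : List L) : w.length ≤ (X.nxt g w).length := X.length_pass _ _ _ _

end RS

/-- Packs of at most `m` letters. -/
abbrev Pk (L : Type) (m : ℕ) : Type := {l : List L // l.length ≤ m}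

/-- Make a pack. -/
def pk {L : Type} (m : ℕ) (l : List L) : Pk L m := ⟨l.take m, by simp⟩

lemma pk_val {L : Type} {m : ℕ} {l : List L} (h : l.length ≤ m) : (pk m l).1 = l := by
  simp [pk, List.take_of_length_le h]

/-- Letters of the transducer. -/
inductive Lt (r : ℕ) (G L : Type) (m : ℕ)
  | S
  | A1 (g : G) (j : Fin (m + 1)) (l : Pk L m)
  | A2 (g : G) (l : Pk L m) (b : ZMod r)

/-- Split off the first letter. -/
def unpk {L : Type} {m : ℕ} (l : Pk L m) : List (Pk L m) :=
  match h : l.1 with
  | [] => [l]
  | [_] => [l]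
  | x :: y :: t => [⟨[x], by have := l.2; rw [h] at this; simp at this ⊢; omega⟩,
      ⟨y :: t, by have := l.2; rw [h] at this; simp at this ⊢; omega⟩]

lemma unpk_ne {L : Type} {m : ℕ} (l : Pk L m) : unpk l ≠ [] := by
  unfold unpk
  split <;> simp

lemma unpk_len {L : Type} {m : ℕ} (l : Pk L m) : (unpk l).length ≤ 2 := by
  unfold unpk
  split <;> simp

lemma unpk_flat {L : Type} {m : ℕ} (l : Pk L m) : (unpk l).flatMap (fun p => p.1) = l.1 := by
  unfold unpk
  split
  · simp
  · simp
  · rename_i h
    simp [h]

lemma unpk_mem {L : Type} {m j : ℕ} (l : Pk L m) (h0 : l.1 ≠ []) (hj : l.1.length ≤ j + 2) :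
    ∀ p ∈ unpk l, p.1 ≠ [] ∧ p.1.length ≤ j + 1 := by
  unfold unpk
  split
  · rename_i h; exact absurd h h0
  · rename_i h
    intro p hp
    simp only [List.mem_singleton] at hp
    subst hp
    rw [h]; simp
  · rename_i h
    intro p hp
    simp only [List.mem_cons, List.not_mem_nil, or_false] at hp
    rw [h] at hj
    rcases hp with rfl | rfl
    · simp
    · simp only [List.length_cons] at hj ⊢
      simp
      omega

namespace RS

variable {r : ℕ} {G L A : Type} (X : RS r G L A)

/-- Weight of the first letter. -/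
def omh (g : G) : List L → ZMod r
  | [] => 0
  | x :: _ => X.om g x

/-- Image of the first letter. -/
def uph (g : G) (P b : ZMod r) : List L → List L
  | [] => []
  | x :: _ => X.up g P b x

/-- Weights of the letters of the transducer. -/
def wt {m : ℕ} : Lt r G L m → ZMod r
  | .S => 0
  | .A1 g j l => if j = 0 then X.omh g l.1 else 0
  | .A2 g l _ => - X.omh g l.1

/-- Outputs of the transducer. -/
def ot {m : ℕ} (g0 : G) (ini : List L) (s : ZMod r) : Lt r G L m → List (Lt r G L m)
  | .S => [.S, .A1 g0 (Fin.last m) (pk m ini)]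
  | .A1 g j l => if j = 0 then [.A2 g l s] else (unpk l).map (.A1 g (j - 1))
  | .A2 g l b => [.A1 (X.nx g (s + b)) (Fin.last m) (pk m (X.uph g (s + b) b l.1))]

/-- Extraction. -/
def psi {m : ℕ} (a : A) : Lt r G L m → Option A
  | .S => some a
  | .A1 _ j l => if j = 0 then (match l.1 with
      | [] => none
      | x :: _ => X.ex x) else none
  | .A2 _ _ _ => none

/-- The transducer. -/
def sys (m : ℕ) (g0 : G) (ini : List L) : Sys (ZMod r) (Lt r G L m) where
  δ := fun s x => s + X.wt x
  out := X.ot g0 ini
  q0 := 0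
  a := .S
  u := [.A1 g0 (Fin.last m) (pk m ini)]
  hne := by
    intro s x
    cases x with
    | S => simp [ot]
    | A1 g j l => simp only [ot]; split_ifs <;> simp [unpk_ne]
    | A2 g l b => simp [ot]
  ha := rfl
  hu := by simp

lemma ot_len {m : ℕ} (g0 : G) (ini : List L) (s : ZMod r) (x : Lt r G L m) :
    (X.ot g0 ini s x).length ≤ 2 := by
  cases x with
  | S => simp [ot]
  | A1 g j l =>
    simp only [ot]
    split_ifs
    · simp
    · simpa using unpk_len l
  | A2 g l b => simp [ot]

variable {m : ℕ} (g0 : G) (ini : List L)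

/-- The letters of a word at the beginning of a round. -/
def emb (m : ℕ) (g : G) (w : List L) : List (Lt r G L m) := w.map (fun x => .A1 g 0 (pk m [x]))

lemma emb_psi (hm : 1 ≤ m) (a : A) (g : G) (w : List L) :
    (emb (r := r) m g w).filterMap (X.psi a) = w.filterMap X.ex := by
  induction w with
  | nil => rfl
  | cons x w ih =>
    have h : X.psi a (.A1 g 0 (pk m [x]) : Lt r G L m) = X.ex x := by
      simp only [psi, if_true]
      rw [pk_val (by simpa using hm)]
    have e : emb (r := r) m g (x :: w) = .A1 g 0 (pk m [x]) :: emb (r := r) m g w := rfl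
    rw [e, List.filterMap_cons, List.filterMap_cons, h, ih]

/-- The word between the two sweeps of a round. -/
def mid (m : ℕ) (g : G) : ZMod r → List L → List (Lt r G L m)
  | _, [] => []
  | b, x :: w => .A2 g (pk m [x]) b :: mid m g (b + X.om g x) w

lemma mid_psi (a : A) (g : G) (b : ZMod r) (w : List L) :
    (X.mid m g b w).filterMap (X.psi a) = [] := by
  induction w generalizing b with
  | nil => rfl
  | cons x w ih =>
    rw [mid, List.filterMap_cons]
    simp only [psi]
    exact ih _

lemma mid_length (g : G) (b : ZMod r) (w : List L) : (X.mid m g b w).length = w.length := by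
  induction w generalizing b with
  | nil => rfl
  | cons x w ih => rw [mid, List.length_cons, ih, List.length_cons]

/-- The packs after a round. -/
def pks (m : ℕ) (g : G) (P : ZMod r) : ZMod r → List L → List (Pk L m)
  | _, [] => []
  | b, x :: w => pk m (X.up g P b x) :: pks m g P (b + X.om g x) w

lemma run1 (hm : 1 ≤ m) (g : G) (b : ZMod r) (w : List L) :
    run (X.sys m g0 ini).δ (X.sys m g0 ini).out b (emb m g w) =
      (b + X.tot g w, X.mid m g b w) := by
  induction w generalizing b with
  | nil => simp [emb, tot, mid]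
  | cons x w ih =>
    have e : emb (r := r) m g (x :: w) = .A1 g 0 (pk m [x]) :: emb (r := r) m g w := rfl
    have h1 : (X.sys m g0 ini).δ b (.A1 g 0 (pk m [x])) = b + X.om g x := by
      simp only [sys, wt, if_true]
      rw [pk_val (by simpa using hm)]
      rfl
    have h2 : (X.sys m g0 ini).out b (.A1 g 0 (pk m [x])) = [.A2 g (pk m [x]) b] := by
      simp only [sys, ot, if_true]
    rw [e, run_cons, h1, h2, ih, tot_cons, mid, add_assoc]
    rfl

lemma run2 (hm : 1 ≤ m) (g : G) (P b : ZMod r) (w : List L) :
    run (X.sys m g0 ini).δ (X.sys m g0 ini).out (P - b) (X.mid m g b w) =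
      (P - b - X.tot g w, (X.pks m g P b w).map (.A1 (X.nx g P) (Fin.last m))) := by
  induction w generalizing b with
  | nil => simp [mid, tot, pks]
  | cons x w ih =>
    have hx : (pk m [x]).1 = [x] := pk_val (by simpa using hm)
    have h1 : (X.sys m g0 ini).δ (P - b) (.A2 g (pk m [x]) b) = P - (b + X.om g x) := by
      simp only [sys, wt]
      rw [hx]
      simp only [omh]
      ring
    have h2 : (X.sys m g0 ini).out (P - b) (.A2 g (pk m [x]) b) =
        [.A1 (X.nx g P) (Fin.last m) (pk m (X.up g P b x))] := by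
      simp only [sys, ot]
      rw [hx, sub_add_cancel]
      rfl
    rw [mid, run_cons, h1, h2, ih, tot_cons, pks, List.map_cons]
    simp only [List.cons_append, List.nil_append, Prod.mk.injEq, and_true]
    ring

lemma pks_length (g : G) (P b : ZMod r) (w : List L) : (X.pks m g P b w).length = w.length := by
  induction w generalizing b with
  | nil => rfl
  | cons x w ih => rw [pks, List.length_cons, ih, List.length_cons]

lemma pks_flat (hup : ∀ g P b l, (X.up g P b l).length ≤ m) (g : G) (P b : ZMod r)
    (w : List L) : (X.pks m g P b w).flatMap (fun p => p.1) = X.pass g P b w := by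
  induction w generalizing b with
  | nil => rfl
  | cons x w ih => rw [pks, List.flatMap_cons, ih, pk_val (hup _ _ _ _), pass]

lemma pks_mem (hup : ∀ g P b l, (X.up g P b l).length ≤ m) (g : G) (P b : ZMod r)
    (w : List L) : ∀ p ∈ X.pks m g P b w, p.1 ≠ [] := by
  induction w generalizing b with
  | nil => simp [pks]
  | cons x w ih =>
    intro p hp
    rw [pks, List.mem_cons] at hp
    rcases hp with rfl | hp
    · rw [pk_val (hup _ _ _ _)]
      exact X.ne _ _ _ _
    · exact ih _ p hp

lemma run3 (g : G) (j : Fin (m + 1)) (hj : j ≠ 0) (W : List (Pk L m)) :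
    run (X.sys m g0 ini).δ (X.sys m g0 ini).out 0 (W.map (.A1 g j)) =
      (0, (W.flatMap unpk).map (.A1 g (j - 1))) := by
  induction W with
  | nil => simp
  | cons x W ih =>
    have h1 : (X.sys m g0 ini).δ 0 (.A1 g j x) = 0 := by
      simp [sys, wt, hj]
    have h2 : (X.sys m g0 ini).out 0 (.A1 g j x) = (unpk x).map (.A1 g (j - 1)) := by
      simp [sys, ot, hj]
    rw [List.map_cons, run_cons, h1, h2, ih, List.flatMap_cons, List.map_append]

lemma flat_length_le {m : ℕ} (W : List (Pk L m)) (h : ∀ p ∈ W, p.1 ≠ []) :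
    W.length ≤ (W.flatMap (fun p => p.1)).length := by
  induction W with
  | nil => simp
  | cons x W ih =>
    rw [List.flatMap_cons, List.length_append, List.length_cons]
    have := ih fun p hp => h p (List.mem_cons_of_mem _ hp)
    have := List.length_pos_iff.2 (h x List.mem_cons_self)
    omega

lemma flatMap_unpk {m : ℕ} (W : List (Pk L m)) :
    (W.flatMap unpk).flatMap (fun p => p.1) = W.flatMap (fun p => p.1) := by
  induction W with
  | nil => simp
  | cons x W ih => rw [List.flatMap_cons, List.flatMap_append, ih, unpk_flat, List.flatMap_cons]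

lemma psi_map_ne (a : A) (g : G) (j : Fin (m + 1)) (hj : j ≠ 0) (W : List (Pk L m)) :
    (W.map (Lt.A1 g j : Pk L m → Lt r G L m)).filterMap (X.psi a) = [] := by
  induction W with
  | nil => rfl
  | cons x W ih =>
    rw [List.map_cons, List.filterMap_cons]
    simp only [psi, if_neg hj]
    exact ih

lemma sing_of {m : ℕ} (g : G) (W : List (Pk L m)) (h : ∀ p ∈ W, p.1 ≠ [] ∧ p.1.length ≤ 1) :
    W.map (Lt.A1 g 0 : Pk L m → Lt r G L m) = emb m g (W.flatMap (fun p => p.1)) := by
  induction W with
  | nil => rfl
  | cons x W ih =>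
    have ih' := ih fun p hp => h p (List.mem_cons_of_mem _ hp)
    obtain ⟨h1, h2⟩ := h x List.mem_cons_self
    obtain ⟨y, hy⟩ : ∃ y, x.1 = [y] := by
      obtain ⟨l, hl⟩ := x
      cases l with
      | nil => exact absurd rfl h1
      | cons y l =>
        cases l with
        | nil => exact ⟨y, rfl⟩
        | cons z l => simp at h2
    have hx : x = pk m [y] := by
      apply Subtype.ext
      rw [hy, pk_val]
      have := x.2
      rw [hy] at this
      exact this
    rw [List.map_cons, ih', List.flatMap_cons, hy, hx]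
    rfl

/-- The unpacking sweeps. -/
lemma unpack (a : A) (g : G) (j : ℕ) (hj : j ≤ m) (W : List (Pk L m))
    (hW : ∀ p ∈ W, p.1 ≠ [] ∧ p.1.length ≤ j + 1) (T : List (Lt r G L m)) :
    ∃ t V, t ≤ j * (W.flatMap (fun p => p.1)).length ∧
      (qstep (X.sys m g0 ini).δ (X.sys m g0 ini).out)^[t]
        (0, W.map (.A1 g ⟨j, by omega⟩), T) = (0, emb m g (W.flatMap (fun p => p.1)), T ++ V) ∧
      V.filterMap (X.psi a) = if j = 0 then [] else (emb m g
        (W.flatMap (fun p => p.1))).filterMap (X.psi a) := by
  induction j generalizing W T with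
  | zero =>
    refine ⟨0, [], by simp, ?_, by simp⟩
    rw [← sing_of (r := r) g W (by simpa using hW)]
    simp
  | succ j ih =>
    have hne : (⟨j + 1, by omega⟩ : Fin (m + 1)) ≠ 0 := by
      intro h
      have := congrArg Fin.val h
      simp at this
    have hsub : (⟨j + 1, by omega⟩ : Fin (m + 1)) - 1 = ⟨j, by omega⟩ := by
      apply Fin.ext
      rw [Fin.val_sub_one_of_ne_zero hne]
      rfl
    have h := read_block (X.sys m g0 ini).δ (X.sys m g0 ini).out
      (W.map (.A1 g (⟨j + 1, by omega⟩ : Fin (m + 1)))) 0 [] T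
    rw [List.append_nil, run3 X g0 ini g _ hne W, hsub, List.length_map] at h
    have hW2 : ∀ p ∈ W.flatMap unpk, p.1 ≠ [] ∧ p.1.length ≤ j + 1 := by
      intro p hp
      obtain ⟨l, hl, hpl⟩ := List.mem_flatMap.1 hp
      exact unpk_mem l (hW l hl).1 (hW l hl).2 p hpl
    obtain ⟨t, V, h1, h2, h3⟩ := ih (by omega) (W.flatMap unpk) hW2
      (T ++ (W.flatMap unpk).map (.A1 g ⟨j, by omega⟩))
    rw [flatMap_unpk] at h1 h2 h3
    refine ⟨t + W.length, (W.flatMap unpk).map (.A1 g ⟨j, by omega⟩) ++ V, ?_, ?_, ?_⟩
    · have := flat_length_le W fun p hp => (hW p hp).1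
      rw [Nat.succ_mul]
      omega
    · rw [Function.iterate_add_apply, h]
      simp only [List.nil_append]
      rw [h2, List.append_assoc]
    · rw [List.filterMap_append, h3, if_neg (Nat.succ_ne_zero j)]
      by_cases hj0 : j = 0
      · subst hj0
        rw [if_pos rfl, List.append_nil, ← flatMap_unpk, ← sing_of (r := r) g _ (by simpa using hW2)]
        rfl
      · rw [if_neg hj0]
        have hne' : (⟨j, by omega⟩ : Fin (m + 1)) ≠ 0 := by
          intro h
          exact hj0 (congrArg Fin.val h)
        rw [psi_map_ne X a g _ hne', List.nil_append]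

/-- One round of the transducer. -/
lemma round (hm : 1 ≤ m) (hup : ∀ g P b l, (X.up g P b l).length ≤ m) (a : A) (g : G)
    (w : List L) (T : List (Lt r G L m)) :
    ∃ t V, t ≤ (m + 2) * (X.nxt g w).length ∧ 2 * w.length ≤ t ∧
      (qstep (X.sys m g0 ini).δ (X.sys m g0 ini).out)^[t] (0, emb m g w, T) =
        (0, emb m (X.nx g (X.tot g w)) (X.nxt g w), T ++ V) ∧
      V.filterMap (X.psi a) = (X.nxt g w).filterMap X.ex := by
  have h1 := read_block (X.sys m g0 ini).δ (X.sys m g0 ini).out (emb m g w) 0 [] T
  rw [List.append_nil, run1 X g0 ini hm g 0 w, zero_add] at h1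
  have h2 := read_block (X.sys m g0 ini).δ (X.sys m g0 ini).out (X.mid m g 0 w) (X.tot g w) []
    (T ++ X.mid m g 0 w)
  have h2' := run2 X g0 ini hm g (X.tot g w) 0 w
  rw [sub_zero, sub_self] at h2'
  rw [List.append_nil, h2'] at h2
  have hlen1 : (emb (r := r) m g w).length = w.length := by simp [emb]
  have hlen2 : (X.mid m g 0 w).length = w.length := X.mid_length _ _ _
  rw [hlen1] at h1
  rw [hlen2] at h2
  set P := X.tot g w with hP
  have hfl : (X.pks m g P 0 w).flatMap (fun p => p.1) = X.nxt g w := pks_flat X hup g P 0 w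
  obtain ⟨t, V, h3, h4, h5⟩ := unpack X g0 ini a (X.nx g P) m le_rfl (X.pks m g P 0 w)
    (fun p hp => ⟨pks_mem X hup g P 0 w p hp, p.2.trans (by omega)⟩)
    (T ++ X.mid m g 0 w ++ (X.pks m g P 0 w).map (.A1 (X.nx g P) (Fin.last m)))
  rw [hfl] at h3 h4 h5
  refine ⟨t + (w.length + w.length), X.mid m g 0 w ++
    ((X.pks m g P 0 w).map (.A1 (X.nx g P) (Fin.last m)) ++ V), ?_, by omega, ?_, ?_⟩
  · have := X.length_nxt g w
    have e : (m + 2) * (X.nxt g w).length = m * (X.nxt g w).length + 2 * (X.nxt g w).length := by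
      ring
    rw [e]
    omega
  · rw [Function.iterate_add_apply, Function.iterate_add_apply, h1]
    simp only [List.nil_append] at h2 ⊢
    rw [h2]
    simp only [List.append_assoc] at h4 ⊢
    exact h4
  · have hm0 : m ≠ 0 := by omega
    have hl0 : (Fin.last m) ≠ 0 := by
      intro h
      exact hm0 (congrArg Fin.val h)
    rw [List.filterMap_append, List.filterMap_append, mid_psi, psi_map_ne X a _ _ hl0, h5,
      if_neg hm0, emb_psi X hm]
    rfl

/-- Several rounds of the transducer. -/
lemma rounds (hm : 1 ≤ m) (hup : ∀ g P b l, (X.up g P b l).length ≤ m) (a : A) (n : ℕ)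
    (s : G × List L × List A) (hs : s.2.1 ≠ []) (T : List (Lt r G L m)) :
    ∃ t V, t ≤ n * ((m + 2) * ((X.rstep)^[n] s).2.1.length) ∧ n ≤ t ∧
      (qstep (X.sys m g0 ini).δ (X.sys m g0 ini).out)^[t] (0, emb m s.1 s.2.1, T) =
        (0, emb m ((X.rstep)^[n] s).1 ((X.rstep)^[n] s).2.1, T ++ V) ∧
      ((X.rstep)^[n] s).2.2 = s.2.2 ++ V.filterMap (X.psi a) ∧
      s.2.1.length ≤ ((X.rstep)^[n] s).2.1.length := by
  induction n with
  | zero => exact ⟨0, [], by simp, le_rfl, by simp, by simp, le_rfl⟩
  | succ n ih =>
    obtain ⟨t, V, h1, h2, h3, h4, h5⟩ := ih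
    rw [Function.iterate_succ_apply']
    set s' := (X.rstep)^[n] s with hs'
    obtain ⟨t', V', k1, k2, k3, k4⟩ := round X g0 ini hm hup a s'.1 s'.2.1 (T ++ V)
    have hl := X.length_nxt s'.1 s'.2.1
    have hr : (X.rstep s').2.1 = X.nxt s'.1 s'.2.1 := rfl
    have hpos := List.length_pos_iff.2 hs
    refine ⟨t' + t, V ++ V', ?_, by omega, ?_, ?_, ?_⟩
    · rw [hr, Nat.succ_mul]
      have : n * ((m + 2) * s'.2.1.length) ≤ n * ((m + 2) * (X.nxt s'.1 s'.2.1).length) :=
        Nat.mul_le_mul_left _ (Nat.mul_le_mul_left _ hl)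
      omega
    · rw [Function.iterate_add_apply, h3, k3, List.append_assoc]
      rfl
    · rw [rstep]
      simp only
      rw [h4, List.filterMap_append, k4, List.append_assoc]
    · rw [hr]
      omega

end RS

instance {r m : ℕ} [NeZero r] {G L : Type} [Finite G] [Finite L] : Finite (Lt r G L m) := by
  have : Finite (Pk L m) := List.finite_length_le L m
  let f : Lt r G L m → Unit ⊕ (G × Fin (m + 1) × Pk L m) ⊕ (G × Pk L m × ZMod r) := fun x =>
    match x with
    | .S => Sum.inl ()
    | .A1 g j l => Sum.inr (Sum.inl (g, j, l))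
    | .A2 g l b => Sum.inr (Sum.inr (g, l, b))
  apply Finite.of_injective f
  intro x y h
  cases x <;> cases y <;> simp_all [f]

end Pool.Agent.W_MP_5d512e_h83
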