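import Pool.Agent.W_MP_5d512e_h83.Prog

/-!
# One simulated step
-/

set_option autoImplicit false

namespace Pool.Agent.W_MP_5d512e_h83

open Pool.Agent.W_MP_5d512e_h33 Gc Lc

variable {S : Type} {d r : ℕ} (Y : Sys S (Fin (d + 1)))

/-! ### Iterated halving -/

lemma hal_iterate_cons {α : Type} (k : ℕ) (y : α) (l : List (α × Bool)) :
    ∃ l', (hal r 0)^[k] ((y, true) :: l) = (y, true) :: l' ∧
      l'.map Prod.fst = l.map Prod.fst := by
  induction k generalizing l with
  | zero => exact ⟨l, rfl, rfl⟩
  | succ k ih =>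
    have h : hal r 0 ((y, true) :: l) = (y, true) :: hal r 1 l := by simp [hal]
    rw [Function.iterate_succ_apply, h]
    obtain ⟨l', h1, h2⟩ := ih (hal r 1 l)
    exact ⟨l', h1, by rw [h2, hal_fst]⟩

lemma fc_hal_iterate {α : Type} (hr : 1 ≤ r) (k : ℕ) (l : List (α × Bool)) :
    fc ((hal r 0)^[k] l) = (cd r)^[k] (fc l) := by
  induction k generalizing l with
  | zero => rfl
  | succ k ih => rw [Function.iterate_succ_apply, ih, fc_hal_zero hr, Function.iterate_succ_apply]

lemma cd_iterate_le_iff (hr : 1 ≤ r) (k c b : ℕ) : (cd r)^[k] c ≤ b ↔ c ≤ b * r ^ k := by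
  induction k generalizing c b with
  | zero => simp
  | succ k ih =>
    rw [Function.iterate_succ_apply, ih, cd_le_iff hr, pow_succ, mul_assoc]

lemma cd_iterate_pos (hr : 1 ≤ r) (k : ℕ) {c : ℕ} (hc : 1 ≤ c) : 1 ≤ (cd r)^[k] c := by
  by_contra h
  have := (cd_iterate_le_iff hr k c 0).1 (by omega)
  omega

/-- The halving loop. -/
lemma loop (hr : 1 < r) (q : S) (m : ℕ) (O : List (Fin (d + 1))) (k : ℕ)
    (cs : List (Unit × Bool)) (vs : List (Fin (d + 1) × Bool)) (hcs : fc cs = r ^ k) :
    ∃ cs', ((prog r Y).rstep)^[2 * k] (hD q, wd cs m vs, O) =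
      (hD q, wd cs' m ((hal r 0)^[k] vs), O) ∧ fc cs' = 1 ∧ cs'.length = cs.length := by
  induction k generalizing cs vs with
  | zero => exact ⟨cs, rfl, by simpa using hcs, rfl⟩
  | succ k ih =>
    have h0 : (fc cs : ZMod r) = 0 := by
      rw [hcs, pow_succ, Nat.cast_mul]
      simp
    obtain ⟨cs', h1, h2, h3⟩ := ih (hal r 0 cs) (hal r 0 vs)
      (by rw [fc_hal_zero hr.le, hcs, cd_pow hr.le])
    refine ⟨cs', ?_, h2, by rw [h3, hal_length]⟩
    rw [show 2 * (k + 1) = 2 * k + 1 + 1 by ring, Function.iterate_succ_apply,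
      Function.iterate_succ_apply, step_D, if_pos h0, step_C Y (hC q) trivial]
    exact h1

/-! ### Reading the first letter -/

lemma step_rd (hr : 1 < r) (q : S) (x y : Fin (d + 1)) (c : Bool) (cs : List (Unit × Bool))
    (m : ℕ) (zs : List (Fin (d + 1))) (O : List (Fin (d + 1))) :
    (prog r Y).rstep (rd q y c, wd cs m ((x, true) :: zs.map (fun z => (z, false))), O) =
      (if x = y then ex q y c else rd q (y + 1) c,
        wd cs m ((x, true) :: zs.map (fun z => (z, false))), O) := by
  have hid : ∀ l ∈ wd cs m ((x, true) :: zs.map (fun z => (z, false))),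
      ∀ b, upc r Y (rd q y c) b l = [l] := by
    intro l _ b
    cases l <;> rfl
  have hnxt : (prog r Y).nxt (rd q y c) (wd cs m ((x, true) :: zs.map (fun z => (z, false)))) =
      wd cs m ((x, true) :: zs.map (fun z => (z, false))) := pass_id Y _ _ _ _ hid
  have h1 : ∀ l ∈ (cs.map (fun x => D x.2) : List (Lc d)), omc r (rd q y c) l = 0 := by
    intro a ha
    obtain ⟨x, _, rfl⟩ := List.mem_map.1 ha
    rfl
  have h2 : ∀ l ∈ (List.replicate m X : List (Lc d)), omc r (rd q y c) l = 0 := by
    intro a ha
    rw [List.eq_of_mem_replicate ha]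
    rfl
  have h3 : ∀ l ∈ ((zs.map (fun z => (z, false))).map (fun x => V x.1 x.2) ++ [E] : List (Lc d)),
      omc r (rd q y c) l = 0 := by
    intro a ha
    simp only [List.map_map, List.mem_append, List.mem_map, Function.comp,
      List.mem_singleton] at ha
    rcases ha with ⟨z, _, rfl⟩ | rfl
    · simp [omc]
    · rfl
  have htot : (prog r Y).tot (rd q y c) (wd cs m ((x, true) :: zs.map (fun z => (z, false)))) =
      if x = y then 1 else 0 := by
    rw [wd, RS.tot_append, RS.tot_append, List.map_cons, List.cons_append, RS.tot_cons,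
      tot_zero Y _ _ h1, tot_zero Y _ _ h2, tot_zero Y _ _ h3, zero_add, zero_add, add_zero]
    simp [prog, omc]
  rw [RS.rstep]
  simp only
  rw [htot, hnxt]
  have : (prog r Y).ex = exc := rfl
  rw [this, exc_wd, List.append_nil]
  have : Fact (1 < r) := ⟨hr⟩
  by_cases hxy : x = y
  · simp [hxy, prog, nxc]
  · simp [hxy, prog, nxc]

lemma loop_rd (hr : 1 < r) (q : S) (x : Fin (d + 1)) (c : Bool) (cs : List (Unit × Bool))
    (m : ℕ) (zs : List (Fin (d + 1))) (O : List (Fin (d + 1))) :
    ((prog r Y).rstep)^[(x : ℕ) + 1]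
      (rd q 0 c, wd cs m ((x, true) :: zs.map (fun z => (z, false))), O) =
      (ex q x c, wd cs m ((x, true) :: zs.map (fun z => (z, false))), O) := by
  have key : ∀ (k : ℕ) (hk : k ≤ (x : ℕ)),
      ((prog r Y).rstep)^[k]
        (rd q 0 c, wd cs m ((x, true) :: zs.map (fun z => (z, false))), O) =
        (rd q (⟨k, by omega⟩ : Fin (d + 1)) c,
          wd cs m ((x, true) :: zs.map (fun z => (z, false))), O) := by
    intro k
    induction k with
    | zero => intro _; rfl
    | succ k ih =>
      intro hk
      rw [Function.iterate_succ_apply', ih (by omega), step_rd Y hr]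
      have hne : x ≠ (⟨k, by omega⟩ : Fin (d + 1)) := by
        intro h
        have := congrArg Fin.val h
        simp at this
        omega
      rw [if_neg hne]
      congr 2
      apply Fin.ext
      rw [Fin.val_add_one_of_lt]
      rw [Fin.lt_def]
      simp only [Fin.val_last]
      omega
  rw [Function.iterate_succ_apply', key (x : ℕ) le_rfl, step_rd Y hr]
  simp

/-! ### Execution -/

/-- Words with new letters. -/
def wn (cs : List (Unit × Bool)) (m : ℕ) (zs us : List (Fin (d + 1))) : List (Lc d) :=
  cs.map (fun x => D x.2) ++ (List.replicate m X ++ (zs.map (fun z => V z true) ++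
    (us.map N ++ [E])))

lemma exc_wn (cs : List (Unit × Bool)) (m : ℕ) (zs us : List (Fin (d + 1))) :
    (wn cs m zs us).filterMap exc = us := by
  have h1 : (cs.map (fun x => D x.2) : List (Lc d)).filterMap exc = [] := by
    rw [List.filterMap_eq_nil_iff]
    intro a ha
    obtain ⟨x, _, rfl⟩ := List.mem_map.1 ha
    rfl
  have h2 : (List.replicate m X : List (Lc d)).filterMap exc = [] := by
    rw [List.filterMap_eq_nil_iff]
    intro a ha
    rw [List.eq_of_mem_replicate ha]
    rfl
  have h3 : (zs.map (fun z => V z true) : List (Lc d)).filterMap exc = [] := by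
    rw [List.filterMap_eq_nil_iff]
    intro a ha
    obtain ⟨x, _, rfl⟩ := List.mem_map.1 ha
    rfl
  have h4 : (us.map N : List (Lc d)).filterMap exc = us := by
    induction us with
    | nil => rfl
    | cons u us ih => rw [List.map_cons, List.filterMap_cons, ih]; rfl
  rw [wn, List.filterMap_append, List.filterMap_append, List.filterMap_append,
    List.filterMap_append, h1, h2, h3, h4]
  simp [exc]

lemma pass_ex_D (q : S) (x : Fin (d + 1)) (c : Bool) (hr : 1 < r) (P b : ZMod r)
    (cs : List (Unit × Bool)) :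
    (prog r Y).pass (ex q x c) P b (cs.map (fun x => D x.2)) =
      (List.replicate (cs.length * r ^ (if c then 1 else 0)) ((), true)).map
        (fun x : Unit × Bool => D x.2) := by
  induction cs generalizing b with
  | nil => simp [RS.pass]
  | cons z cs ih =>
    rw [List.map_cons, RS.pass, ih, List.length_cons, Nat.succ_mul,
      Nat.add_comm (cs.length * _) (r ^ _), List.replicate_add, List.map_append]
    congr 1
    cases c
    · simp [prog, upc]
    · simp only [prog, upc, if_true, pow_one]
      rw [← List.replicate_succ, show r - 1 + 1 = r by omega]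
      simp

lemma pass_ex_V (q : S) (x : Fin (d + 1)) (c : Bool) (P b : ZMod r)
    (zs : List (Fin (d + 1))) :
    (prog r Y).pass (ex q x c) P b ((zs.map (fun z => (z, false))).map (fun x => V x.1 x.2)) =
      zs.map (fun z => V z true) := by
  induction zs generalizing b with
  | nil => rfl
  | cons z zs ih =>
    rw [List.map_cons, List.map_cons, RS.pass, ih, List.map_cons]
    simp [prog, upc]

lemma step_ex (hr : 1 < r) (q : S) (x : Fin (d + 1)) (c : Bool) (cs : List (Unit × Bool))
    (m : ℕ) (zs : List (Fin (d + 1))) (O : List (Fin (d + 1))) :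
    (prog r Y).rstep (ex q x c, wd cs m ((x, true) :: zs.map (fun z => (z, false))), O) =
      (nm (Y.δ q x), wn (List.replicate (cs.length * r ^ (if c then 1 else 0)) ((), true)) (m + 1)
        zs (Y.out q x), O ++ Y.out q x) := by
  have hnxt : (prog r Y).nxt (ex q x c) (wd cs m ((x, true) :: zs.map (fun z => (z, false)))) =
      wn (List.replicate (cs.length * r ^ (if c then 1 else 0)) ((), true)) (m + 1)
        zs (Y.out q x) := by
    have h2 : ∀ l ∈ (List.replicate m X : List (Lc d)), ∀ b, upc r Y (ex q x c) b l = [l] := by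
      intro a ha b
      rw [List.eq_of_mem_replicate ha]
      rfl
    rw [RS.nxt]
    conv_lhs => rw [wd]
    rw [RS.pass_append, RS.pass_append, RS.pass_append, pass_ex_D Y q x c hr,
      pass_id Y _ _ _ _ h2, List.map_cons, RS.pass, pass_ex_V, wn]
    have h3 : ∀ P b, (prog r Y).up (ex q x c) P b (V x true) = [X] := by
      intro P b
      simp [prog, upc]
    have h4 : ∀ P b, (prog r Y).pass (ex q x c) P b [E] = (Y.out q x).map N ++ [E] := by
      intro P b
      simp [RS.pass, prog, upc]
    rw [h3, h4, List.replicate_succ']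
    simp only [List.append_assoc]
  rw [RS.rstep]
  simp only
  rw [hnxt]
  have : (prog r Y).ex = exc := rfl
  rw [this, exc_wn]
  rfl

lemma step_nm (q : S) (cs : List (Unit × Bool)) (m : ℕ) (zs us : List (Fin (d + 1)))
    (O : List (Fin (d + 1))) :
    (prog r Y).rstep (nm q, wn cs m zs us, O) =
      (hD q, wd cs m ((zs ++ us).map (fun z => (z, true))), O) := by
  have hnxt : (prog r Y).nxt (nm q) (wn cs m zs us) =
      wd cs m ((zs ++ us).map (fun z => (z, true))) := by
    have h1 : ∀ l ∈ (cs.map (fun x => D x.2) : List (Lc d)), ∀ b, upc r Y (nm q) b l = [l] := by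
      intro a ha b
      obtain ⟨x, _, rfl⟩ := List.mem_map.1 ha
      rfl
    have h2 : ∀ l ∈ (List.replicate m X : List (Lc d)), ∀ b, upc r Y (nm q) b l = [l] := by
      intro a ha b
      rw [List.eq_of_mem_replicate ha]
      rfl
    have h3 : ∀ l ∈ (zs.map (fun z => V z true) : List (Lc d)), ∀ b,
        upc r Y (nm q) b l = [l] := by
      intro a ha b
      obtain ⟨x, _, rfl⟩ := List.mem_map.1 ha
      rfl
    have h5 : ∀ l ∈ ([E] : List (Lc d)), ∀ b, upc r Y (nm q) b l = [l] := by
      intro a ha b
      rw [List.mem_singleton.1 ha]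
      rfl
    have h4 : ∀ (P b : ZMod r) (us : List (Fin (d + 1))),
        (prog r Y).pass (nm q) P b (us.map N) = us.map (fun z => V z true) := by
      intro P b us
      induction us generalizing b with
      | nil => rfl
      | cons u us ih =>
        rw [List.map_cons, RS.pass, ih, List.map_cons]
        simp [prog, upc]
    rw [RS.nxt]
    conv_lhs => rw [wn]
    rw [RS.pass_append, RS.pass_append, RS.pass_append, RS.pass_append, pass_id Y _ _ _ _ h1,
      pass_id Y _ _ _ _ h2, pass_id Y _ _ _ _ h3, pass_id Y _ _ _ _ h5, h4, wd]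
    simp [Function.comp_def]
  rw [RS.rstep]
  simp only
  rw [hnxt]
  have : (prog r Y).ex = exc := rfl
  rw [this, exc_wd, List.append_nil]
  rfl

/-! ### The simulated step -/

lemma cast_eq_one_iff (hr : 1 < r) {c : ℕ} (h1 : 1 ≤ c) (h2 : c ≤ r) :
    (c : ZMod r) = 1 ↔ c = 1 := by
  constructor
  · intro h
    have h3 : ((c : ℕ) : ZMod r) = ((1 : ℕ) : ZMod r) := by simpa using h
    rw [ZMod.natCast_eq_natCast_iff, Nat.modEq_iff_dvd] at h3
    have h4 : (r : ℤ) ∣ (c : ℤ) - 1 := by
      have := (dvd_neg (a := (r : ℤ))).2 h3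
      simpa using this
    have h5 : (c : ℤ) - 1 < r := by omega
    have h6 : (0 : ℤ) ≤ (c : ℤ) - 1 := by omega
    have h7 := Int.eq_zero_of_dvd_of_nonneg_of_lt h6 h5 h4
    omega
  · rintro rfl
    simp

theorem step (hr : 1 < r) (q : S) (k m : ℕ) (x : Fin (d + 1)) (zs : List (Fin (d + 1)))
    (O : List (Fin (d + 1))) (hk : zs.length + 1 ≤ r ^ (k + 1)) :
    ∃ n c, 1 ≤ n ∧ n ≤ 2 * k + d + 5 ∧ c ≤ 1 ∧
      ((prog r Y).rstep)^[n] (hD q, wd (List.replicate (r ^ k) ((), true)) m
        ((x :: zs).map (fun z => (z, true))), O) =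
      (hD (Y.δ q x), wd (List.replicate (r ^ (k + c)) ((), true)) (m + 1)
        ((zs ++ Y.out q x).map (fun z => (z, true))), O ++ Y.out q x) ∧
      (c = 0 → zs.length + 1 ≤ r ^ k) ∧ (c = 1 → r ^ k < zs.length + 1) := by
  have hcs : fc (List.replicate (r ^ k) ((), true)) = r ^ k := by
    simp [fc, List.countP_replicate]
  obtain ⟨cs', h1, h2, h3⟩ := loop Y hr q m O k (List.replicate (r ^ k) ((), true))
    ((x :: zs).map (fun z => (z, true))) hcs
  rw [List.length_replicate] at h3
  obtain ⟨l', h4, h5⟩ := hal_iterate_cons (r := r) (k + 1) x (zs.map (fun z => (z, true)))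
  have hfc : fc ((x :: zs).map (fun z => (z, true))) = zs.length + 1 := by
    have : ∀ l : List (Fin (d + 1)), fc (l.map (fun z => (z, true))) = l.length := by
      intro l
      induction l with
      | nil => rfl
      | cons z l ih => rw [List.map_cons, fc_cons_true, ih, List.length_cons]
    rw [this, List.length_cons]
  set vs := (hal r 0)^[k] ((x :: zs).map (fun z => (z, true))) with hvs
  have hv1 : fc vs = (cd r)^[k] (zs.length + 1) := by
    rw [hvs, fc_hal_iterate hr.le, hfc]
  have hv2 : hal r 0 vs = (x, true) :: l' := by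
    rw [hvs, ← Function.iterate_succ_apply' (hal r 0)]
    exact h4
  have hv3 : fc vs ≤ r := by
    rw [hv1, cd_iterate_le_iff hr.le]
    rw [pow_succ, mul_comm] at hk
    exact hk
  have hv4 : 1 ≤ fc vs := by
    rw [hv1]
    exact cd_iterate_pos hr.le k (by omega)
  have hv5 : fc ((x, true) :: l') = 1 := by
    rw [← hv2, fc_hal_zero hr.le]
    apply le_antisymm
    · rw [cd_le_iff hr.le, one_mul]
      exact hv3
    · exact cd_pos hr.le hv4
  have hl' : l' = zs.map (fun z => (z, false)) := by
    rw [eq_of_fc_one hv5, h5]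
    simp [Function.comp_def]
  rw [hl'] at hv2
  set c : Bool := decide ((fc vs : ZMod r) ≠ 1) with hc
  refine ⟨1 + (1 + ((x : ℕ) + 1 + (1 + (1 + 2 * k)))), if c then 1 else 0, by omega, by omega,
    by split_ifs <;> omega, ?_, ?_, ?_⟩
  · rw [Function.iterate_add_apply _ 1, Function.iterate_add_apply _ 1,
      Function.iterate_add_apply _ ((x : ℕ) + 1), Function.iterate_add_apply _ 1,
      Function.iterate_add_apply _ 1, h1]
    simp only [Function.iterate_one]
    have hne : ¬ ((fc cs' : ZMod r) = 0) := by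
      have : Fact (1 < r) := ⟨hr⟩
      rw [h2]
      simp
    have hdv : cs'.length * r ^ (if c = true then 1 else 0) =
        r ^ (k + if c = true then 1 else 0) := by
      rw [h3, pow_add]
    rw [step_D, if_neg hne, step_C Y (ck q) trivial, hv2]
    have : nxc r Y (ck q) (fc vs : ZMod r) = rd q 0 c := rfl
    rw [this, loop_rd Y hr, step_ex Y hr, step_nm, hal_length, hdv]
  · intro hc0
    have hcf : c = false := by
      cases hcc : c
      · rfl
      · rw [hcc] at hc0; simp at hc0
    rw [hc] at hcf
    have h6 : (fc vs : ZMod r) = 1 := by simpa using hcf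
    rw [cast_eq_one_iff hr hv4 hv3] at h6
    have h7 := (cd_iterate_le_iff hr.le k (zs.length + 1) 1).1 (by rw [← hv1, h6])
    rwa [one_mul] at h7
  · intro hc1
    have hcf : c = true := by
      cases hcc : c
      · rw [hcc] at hc1; simp at hc1
      · rfl
    rw [hc] at hcf
    have h6 : ¬ ((fc vs : ZMod r) = 1) := by simpa using hcf
    rw [cast_eq_one_iff hr hv4 hv3] at h6
    by_contra hcon
    have h7 := (cd_iterate_le_iff hr.le k (zs.length + 1) 1).2 (by rw [one_mul]; omega)
    rw [← hv1] at h7
    omega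

end Pool.Agent.W_MP_5d512e_h83
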